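import Mathlib

/-!
# The shadow of a polynomial whose roots form a rhombus

Let `P = (x^2 - a^2)(x^2 + b^2)` with `a, b > 0` and `a ≠ b`. The roots `±a, ±ib` are in convex
position and do not form a regular polygon, but all zeros of all polynomials `(P^n)^(m)` lie on the
real or on the imaginary axis. So the shadow of `P` has empty interior, and is not the closure of
a nonempty open set.

In the variable `y = x^2` two derivatives act as `F ↦ 2 F' + 4 y F''`, and this operator preserves
the property that all roots are real, since `H'/H + 1/(2y)` has negative imaginary part in the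
upper half-plane when `H` has only real roots.
-/

open Polynomial Set

namespace Pool.Agent.Results.MP_424c76_an.Rhombus

/-- `Z`: all zeros of the polynomials `(d/dx)^m P^n`, `n ≥ 1`, `0 ≤ m ≤ n deg P`. -/
def zeroSet (P : ℂ[X]) : Set ℂ :=
  {z | ∃ n : ℕ, 1 ≤ n ∧ ∃ m : ℕ, m ≤ n * P.natDegree ∧ (derivative^[m] (P ^ n)).eval z = 0}

/-- The shadow of `P`: the closure of the set `Z`. -/
def shadow (P : ℂ[X]) : Set ℂ := closure (zeroSet P)

/-- The roots of `P` are in convex position: they are `deg P` distinct points, none of which lies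
in the convex hull of the others. -/
def ConvexPosition (P : ℂ[X]) : Prop :=
  {z : ℂ | P.eval z = 0}.ncard = P.natDegree ∧
    ∀ z : ℂ, P.eval z = 0 → z ∉ convexHull ℝ ({w : ℂ | P.eval w = 0} \ {z})

/-- `S` is the set of vertices of a regular `d`-gon. -/
def IsRegularPolygon (d : ℕ) (S : Set ℂ) : Prop :=
  ∃ c r : ℂ, r ≠ 0 ∧
    S = {z | ∃ k : ℕ, k < d ∧ z = c + r * Complex.exp (2 * Real.pi * Complex.I * k / d)}

/-- all roots of `F` are real -/
def AllReal (F : ℂ[X]) : Prop := ∀ w : ℂ, F.eval w = 0 → w.im = 0

lemma im_sum (s : Multiset ℂ) (f : ℂ → ℂ) : ((s.map f).sum).im = (s.map fun z => (f z).im).sum := by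
  induction s using Multiset.induction_on with
  | empty => simp
  | cons a s ih => simp [ih]

lemma im_term {w y : ℂ} (hy : y.im = 0) : (1 / (w - y)).im * w.im ≤ 0 := by
  rw [one_div, Complex.inv_im, Complex.sub_im, hy, sub_zero]
  rw [div_mul_eq_mul_div]
  apply div_nonpos_of_nonpos_of_nonneg
  · nlinarith [mul_self_nonneg w.im]
  · exact Complex.normSq_nonneg _

lemma im_term_lt {w y : ℂ} (hy : y.im = 0) (hw : w.im ≠ 0) : (1 / (w - y)).im * w.im < 0 := by
  have h0 : w - y ≠ 0 := by
    intro h
    apply hw
    have := congrArg Complex.im h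
    simpa [hy] using this
  rw [one_div, Complex.inv_im, Complex.sub_im, hy, sub_zero]
  rw [div_mul_eq_mul_div]
  apply div_neg_of_neg_of_pos
  · have : 0 < w.im * w.im := mul_self_pos.mpr hw
    linarith
  · exact Complex.normSq_pos.mpr h0

lemma sum_im_nonpos {F : ℂ[X]} (hF : AllReal F) (w : ℂ) (s : Multiset ℂ)
    (hs : ∀ y ∈ s, F.eval y = 0) : ((s.map fun z => (1 / (w - z)).im).sum) * w.im ≤ 0 := by
  induction s using Multiset.induction_on with
  | empty => simp
  | cons a s ih =>
    rw [Multiset.map_cons, Multiset.sum_cons, add_mul]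
    have h1 := im_term (w := w) (hF a (hs a (Multiset.mem_cons_self a s)))
    have h2 := ih (fun y hy => hs y (Multiset.mem_cons_of_mem hy))
    linarith

lemma sum_im_neg {F : ℂ[X]} (hF : AllReal F) {w : ℂ} (hw : w.im ≠ 0) (s : Multiset ℂ)
    (hs : ∀ y ∈ s, F.eval y = 0) (h0 : s ≠ 0) :
    ((s.map fun z => (1 / (w - z)).im).sum) * w.im < 0 := by
  obtain ⟨a, ha⟩ := Multiset.exists_mem_of_ne_zero h0
  obtain ⟨t, rfl⟩ := Multiset.exists_cons_of_mem ha
  rw [Multiset.map_cons, Multiset.sum_cons, add_mul]
  have h1 := im_term_lt (w := w) (hF a (hs a (Multiset.mem_cons_self a t))) hw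
  have h2 := sum_im_nonpos hF w t (fun y hy => hs y (Multiset.mem_cons_of_mem hy))
  linarith

lemma logDeriv_eq {F : ℂ[X]} {w : ℂ} (hw : F.eval w ≠ 0) :
    (derivative F).eval w = F.eval w * (F.roots.map fun z => 1 / (w - z)).sum := by
  have := (IsAlgClosed.splits F).eval_derivative_div_eval_of_ne_zero hw
  rw [← this]
  field_simp

/-- derivatives of polynomials with only real roots -/
lemma AllReal.deriv {F : ℂ[X]} (hF : AllReal F) (hd : derivative F ≠ 0) :
    AllReal (derivative F) := by
  intro w hw
  by_contra him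
  have hF0 : F.eval w ≠ 0 := fun h => him (hF w h)
  have hFne : F ≠ 0 := by rintro rfl; simp at hd
  rw [logDeriv_eq hF0] at hw
  have hsum : (F.roots.map fun z => 1 / (w - z)).sum = 0 := by
    rcases mul_eq_zero.mp hw with h | h
    · exact absurd h hF0
    · exact h
  have hroots : F.roots ≠ 0 := by
    intro h
    apply hd
    have hdeg : F.natDegree = 0 := by
      rw [(IsAlgClosed.splits F).natDegree_eq_card_roots, h, Multiset.card_zero]
    rw [Polynomial.eq_C_of_natDegree_eq_zero hdeg]
    simp
  have h1 := sum_im_neg hF him F.roots (fun y hy => (mem_roots hFne).mp hy) hroots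
  rw [← im_sum, hsum] at h1
  simp at h1

/-- the operator `H ↦ 2 H + 4 y H'` -/
lemma AllReal.op {H : ℂ[X]} (hH : AllReal H) (h0 : H ≠ 0) : AllReal (2 * H + 4 * X * derivative H) := by
  intro w hw
  by_contra him
  have hF0 : H.eval w ≠ 0 := fun h => him (hH w h)
  have hw0 : w ≠ 0 := by rintro rfl; simp at him
  have h1 : (2 * H + 4 * X * derivative H).eval w =
      4 * w * H.eval w * ((H.roots.map fun z => 1 / (w - z)).sum + (1 / 2) * (1 / (w - 0))) := by
    simp only [eval_add, eval_mul, eval_ofNat, eval_X]
    rw [logDeriv_eq hF0]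
    field_simp
    ring
  rw [h1] at hw
  have hsum : (H.roots.map fun z => 1 / (w - z)).sum + (1 / 2) * (1 / (w - 0)) = 0 := by
    rcases mul_eq_zero.mp hw with h | h
    · exfalso
      rcases mul_eq_zero.mp h with h | h
      · apply hw0; simpa using h
      · exact hF0 h
    · exact h
  have h2 := sum_im_nonpos hH w H.roots (fun y hy => (mem_roots h0).mp hy)
  have h3 := im_term_lt (w := w) (y := 0) (by simp) him
  rw [← im_sum] at h2
  have h4 := congrArg Complex.im hsum
  have h5 : ((1 / 2 : ℂ) * (1 / (w - 0))).im = (1 / 2) * (1 / (w - 0)).im := by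
    have : (1 / 2 : ℂ) = ((1 / 2 : ℝ) : ℂ) := by norm_num
    rw [this, Complex.im_ofReal_mul]
  rw [Complex.add_im, h5, Complex.zero_im] at h4
  have h6 : (((H.roots.map fun z => 1 / (w - z)).sum).im + (1 / 2) * (1 / (w - 0)).im) * w.im < 0 := by
    nlinarith
  rw [h4] at h6
  simp at h6

/-- derivatives of an even polynomial all of whose roots are real in `y = x^2` -/
lemma even_step {f : ℂ[X]} {G : ℂ[X]} (hf : f = G.comp (X ^ 2)) :
    derivative f = 2 * X * (derivative G).comp (X ^ 2) := by
  have h : derivative (X ^ 2 : ℂ[X]) = 2 * X := by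
    rw [derivative_X_pow]; simp; rfl
  rw [hf, derivative_comp, h]

lemma even_step2 {f : ℂ[X]} {G : ℂ[X]} (hf : f = G.comp (X ^ 2)) :
    derivative (derivative f) =
      (2 * derivative G + 4 * X * derivative (derivative G)).comp (X ^ 2) := by
  have h : derivative (X ^ 2 : ℂ[X]) = 2 * X := by
    rw [derivative_X_pow]; simp; rfl
  rw [even_step hf, derivative_mul, derivative_comp, h]
  simp
  ring

lemma even_all {f F : ℂ[X]} (hf : f = F.comp (X ^ 2)) (hF : AllReal F) (k : ℕ) :
    derivative^[2 * k] f ≠ 0 → ∃ G : ℂ[X], AllReal G ∧ derivative^[2 * k] f = G.comp (X ^ 2) := by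
  induction k with
  | zero => intro _; exact ⟨F, hF, by simpa using hf⟩
  | succ k ih =>
    intro h
    have e : derivative^[2 * (k + 1)] f = derivative (derivative (derivative^[2 * k] f)) := by
      rw [show 2 * (k + 1) = (2 * k + 1) + 1 by ring, Function.iterate_succ_apply',
        Function.iterate_succ_apply']
    rw [e] at h ⊢
    have h1 : derivative^[2 * k] f ≠ 0 := by
      intro h1; rw [h1] at h; simp at h
    obtain ⟨G, hG, hGf⟩ := ih h1
    have h2 : derivative G ≠ 0 := by
      intro h2
      rw [even_step hGf, h2] at h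
      simp at h
    exact ⟨_, (hG.deriv h2).op h2, even_step2 hGf⟩

/-- the zeros of all nonzero derivatives of an even polynomial with `y`-roots real -/
lemma zeros_cross {f F : ℂ[X]} (hf : f = F.comp (X ^ 2)) (hF : AllReal F) (m : ℕ)
    (hm : derivative^[m] f ≠ 0) {z : ℂ} (hz : (derivative^[m] f).eval z = 0) :
    z.re = 0 ∨ z.im = 0 := by
  have key : ∀ G : ℂ[X], AllReal G → G.eval (z ^ 2) = 0 → z.re = 0 ∨ z.im = 0 := by
    intro G hG h
    have := hG _ h
    rw [pow_two, Complex.mul_im] at this
    have h2 : z.re * z.im = 0 := by linarith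
    exact mul_eq_zero.mp h2
  rcases Nat.even_or_odd' m with ⟨k, hk | hk⟩
  · subst hk
    obtain ⟨G, hG, hGf⟩ := even_all hf hF k hm
    rw [hGf, eval_comp] at hz
    exact key G hG (by simpa using hz)
  · subst hk
    rw [Function.iterate_succ_apply'] at hz hm
    have h1 : derivative^[2 * k] f ≠ 0 := by
      intro h1; rw [h1] at hm; simp at hm
    obtain ⟨G, hG, hGf⟩ := even_all hf hF k h1
    have h2 : derivative G ≠ 0 := by
      intro h2
      rw [even_step hGf, h2] at hm
      simp at hm
    rw [even_step hGf, eval_mul, eval_mul, eval_comp] at hz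
    rcases mul_eq_zero.mp hz with h | h
    · have : z = 0 := by simpa using h
      left; rw [this]; simp
    · exact key _ (hG.deriv h2) (by simpa using h)

/-- the polynomial `(x^2 - a^2)(x^2 + b^2)` with roots `±a, ±ib` -/
noncomputable def rhombus (a b : ℝ) : ℂ[X] := (X ^ 2 - C ((a:ℂ) ^ 2)) * (X ^ 2 + C ((b:ℂ) ^ 2))

lemma rhombus_natDegree (a b : ℝ) : (rhombus a b).natDegree = 4 := by
  unfold rhombus
  rw [natDegree_mul]
  · rw [natDegree_X_pow_sub_C, natDegree_X_pow_add_C]
  · exact (monic_X_pow_sub_C _ (by norm_num)).ne_zero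
  · exact (monic_X_pow_add_C _ (by norm_num)).ne_zero

lemma rhombus_eval (a b : ℝ) (z : ℂ) :
    (rhombus a b).eval z = (z - a) * (z + a) * ((z - b * Complex.I) * (z + b * Complex.I)) := by
  unfold rhombus
  simp only [eval_mul, eval_sub, eval_add, eval_pow, eval_X, eval_C]
  have := Complex.I_sq
  linear_combination ((z ^ 2 - (a:ℂ) ^ 2) * (b:ℂ) ^ 2) * this

lemma rhombus_roots (a b : ℝ) :
    {z : ℂ | (rhombus a b).eval z = 0} = {(a:ℂ), -(a:ℂ), (b:ℂ) * Complex.I, -((b:ℂ) * Complex.I)} := by
  ext z
  simp only [mem_ofPred_eq, rhombus_eval, mul_eq_zero, mem_insert_iff, mem_singleton_iff,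
    sub_eq_zero, add_eq_zero_iff_eq_neg]
  tauto

lemma rhombus_comp (a b : ℝ) (n : ℕ) : (rhombus a b) ^ n =
    (((X - C ((a:ℂ) ^ 2)) * (X + C ((b:ℂ) ^ 2))) ^ n).comp (X ^ 2) := by
  unfold rhombus
  simp

lemma rhombus_allReal (a b : ℝ) (n : ℕ) :
    AllReal (((X - C ((a:ℂ) ^ 2)) * (X + C ((b:ℂ) ^ 2))) ^ n) := by
  intro w hw
  rw [eval_pow] at hw
  have h2 : ((X - C ((a:ℂ) ^ 2)) * (X + C ((b:ℂ) ^ 2))).eval w = 0 := by
    by_contra hne
    exact (pow_ne_zero n hne) hw
  simp only [eval_mul, eval_sub, eval_add, eval_X, eval_C, mul_eq_zero, sub_eq_zero,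
    add_eq_zero_iff_eq_neg] at h2
  rcases h2 with h2 | h2
  · rw [h2, ← Complex.ofReal_pow]; exact Complex.ofReal_im _
  · rw [h2, ← Complex.ofReal_pow, Complex.neg_im, Complex.ofReal_im, neg_zero]

lemma shadow_subset (a b : ℝ) : shadow (rhombus a b) ⊆ {z : ℂ | z.re = 0 ∨ z.im = 0} := by
  apply closure_minimal
  · rintro z ⟨n, hn, m, hm, hz⟩
    refine zeros_cross (rhombus_comp a b n) (rhombus_allReal a b n) m ?_ hz
    intro h0
    have hP : rhombus a b ≠ 0 := by
      intro h; have := rhombus_natDegree a b; rw [h] at this; simp at this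
    have hPn : (rhombus a b) ^ n ≠ 0 := pow_ne_zero _ hP
    have hdeg : ((rhombus a b) ^ n).natDegree = n * (rhombus a b).natDegree := natDegree_pow _ _
    have h1 := coeff_iterate_derivative (k := m) ((rhombus a b) ^ n)
      (((rhombus a b) ^ n).natDegree - m)
    rw [h0, Nat.sub_add_cancel (by rw [hdeg]; exact hm), coeff_zero] at h1
    have h2 : ((rhombus a b) ^ n).coeff ((rhombus a b) ^ n).natDegree ≠ 0 :=
      leadingCoeff_ne_zero.mpr hPn
    have h3 := h1.symm
    rw [smul_eq_zero] at h3
    rcases h3 with h3 | h3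
    · rw [Nat.descFactorial_eq_zero_iff_lt] at h3
      rw [← hdeg] at hm
      omega
    · exact h2 h3
  · have : {z : ℂ | z.re = 0 ∨ z.im = 0} = {z : ℂ | z.re = 0} ∪ {z : ℂ | z.im = 0} := by
      ext; simp
    rw [this]
    exact (isClosed_eq Complex.continuous_re continuous_const).union
      (isClosed_eq Complex.continuous_im continuous_const)

/-- a set containing a nonempty open set is not contained in the two axes -/
lemma no_open {V : Set ℂ} (hV : IsOpen V) (hne : V.Nonempty) :
    ¬ V ⊆ {z : ℂ | z.re = 0 ∨ z.im = 0} := by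
  intro h
  obtain ⟨v, hv⟩ := hne
  obtain ⟨ε, hε, hball⟩ := Metric.isOpen_iff.mp hV v hv
  have hsmall : ∀ s t : ℝ, |s| < ε / 2 → |t| < ε / 2 → v + (s + t * Complex.I) ∈ V := by
    intro s t hs ht
    apply hball
    rw [Metric.mem_ball, dist_eq_norm, add_sub_cancel_left]
    calc ‖(s:ℂ) + t * Complex.I‖ ≤ ‖(s:ℂ)‖ + ‖(t:ℂ) * Complex.I‖ := norm_add_le _ _
      _ = |s| + |t| := by simp
      _ < ε := by linarith
  have h1 : ∃ s : ℝ, |s| < ε / 2 ∧ v.re + s ≠ 0 := by
    by_cases h0 : v.re = 0
    · exact ⟨ε / 4, by rw [abs_of_pos (by linarith)]; linarith, by rw [h0]; linarith⟩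
    · exact ⟨0, by simpa using hε, by simpa using h0⟩
  have h2 : ∃ t : ℝ, |t| < ε / 2 ∧ v.im + t ≠ 0 := by
    by_cases h0 : v.im = 0
    · exact ⟨ε / 4, by rw [abs_of_pos (by linarith)]; linarith, by rw [h0]; linarith⟩
    · exact ⟨0, by simpa using hε, by simpa using h0⟩
  obtain ⟨s, hs, hs2⟩ := h1
  obtain ⟨t, ht, ht2⟩ := h2
  rcases h (hsmall s t hs ht) with h | h
  · apply hs2; simpa using h
  · apply ht2; simpa using h

lemma rhombus_convex {a b : ℝ} (ha : 0 < a) (hb : 0 < b) : ConvexPosition (rhombus a b) := by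
  constructor
  · rw [rhombus_roots, rhombus_natDegree]
    have hcard : ({(a:ℂ), -(a:ℂ), (b:ℂ) * Complex.I, -((b:ℂ) * Complex.I)} : Finset ℂ).card = 4 := by
      rw [Finset.card_insert_of_notMem, Finset.card_insert_of_notMem,
        Finset.card_insert_of_notMem, Finset.card_singleton]
      · simp only [Finset.mem_singleton]
        intro h
        have := congrArg Complex.im h
        simp at this
        linarith
      · simp only [Finset.mem_insert, Finset.mem_singleton]
        rintro (h | h)
        · have := congrArg Complex.re h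
          simp at this
          linarith
        · have := congrArg Complex.re h
          simp at this
          linarith
      · simp only [Finset.mem_insert, Finset.mem_singleton]
        rintro (h | h | h)
        · have := congrArg Complex.re h
          simp at this
          linarith
        · have := congrArg Complex.re h
          simp at this
          linarith
        · have := congrArg Complex.re h
          simp at this
          linarith
    rw [← hcard, ← Set.ncard_coe_finset]
    congr 1
    ext z
    simp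
  · intro z hz
    -- a half-plane that contains the other roots but not `z`
    have half : ∀ (f : ℂ → ℝ) (_ : IsLinearMap ℝ f), 0 < f z →
        (∀ w : ℂ, (rhombus a b).eval w = 0 → w ≠ z → f w ≤ 0) →
        z ∉ convexHull ℝ ({w : ℂ | (rhombus a b).eval w = 0} \ {z}) := by
      intro f hf hfz hw hmem
      have hconv : Convex ℝ {w : ℂ | f w ≤ 0} := convex_halfSpace_le hf 0
      have hsub : ({w : ℂ | (rhombus a b).eval w = 0} \ {z}) ⊆ {w : ℂ | f w ≤ 0} := by
        rintro w ⟨h1, h2⟩
        exact hw w h1 h2
      have := convexHull_min hsub hconv hmem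
      have h3 : f z ≤ 0 := this
      linarith
    have hroots : ∀ w : ℂ, (rhombus a b).eval w = 0 →
        w = a ∨ w = -a ∨ w = b * Complex.I ∨ w = -(b * Complex.I) := by
      intro w hw
      have : w ∈ {z : ℂ | (rhombus a b).eval z = 0} := hw
      rw [rhombus_roots] at this
      simpa using this
    rcases hroots z hz with h | h | h | h
    · apply half (fun w => w.re) (IsLinearMap.mk Complex.add_re (by intro c x; simp))
      · rw [h]; simpa using ha
      · intro w hw hne
        rcases hroots w hw with h' | h' | h' | h'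
        · exact absurd (h'.trans h.symm) hne
        all_goals rw [h']; simp
        exact ha.le
    · apply half (fun w => -w.re) (IsLinearMap.mk (by intro x y; simp; ring) (by intro c x; simp))
      · rw [h]; simpa using ha
      · intro w hw hne
        rcases hroots w hw with h' | h' | h' | h'
        · rw [h']; simp; exact ha.le
        · exact absurd (h'.trans h.symm) hne
        all_goals rw [h']; simp
    · apply half (fun w => w.im) (IsLinearMap.mk Complex.add_im (by intro c x; simp))
      · rw [h]; simpa using hb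
      · intro w hw hne
        rcases hroots w hw with h' | h' | h' | h'
        · rw [h']; simp
        · rw [h']; simp
        · exact absurd (h'.trans h.symm) hne
        · rw [h']; simp; exact hb.le
    · apply half (fun w => -w.im) (IsLinearMap.mk (by intro x y; simp; ring) (by intro c x; simp))
      · rw [h]; simpa using hb
      · intro w hw hne
        rcases hroots w hw with h' | h' | h' | h'
        · rw [h']; simp
        · rw [h']; simp
        · rw [h']; simp; exact hb.le
        · exact absurd (h'.trans h.symm) hne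

lemma rhombus_not_regular {a b : ℝ} (ha : 0 < a) (hb : 0 < b) (hab : a ≠ b) :
    ¬ IsRegularPolygon 4 {z : ℂ | (rhombus a b).eval z = 0} := by
  rintro ⟨c, r, hr, hS⟩
  have hdist : ∀ z : ℂ, (rhombus a b).eval z = 0 → Complex.normSq (z - c) = Complex.normSq r := by
    intro z hz
    have hz' : z ∈ {z : ℂ | (rhombus a b).eval z = 0} := hz
    rw [hS] at hz'
    obtain ⟨k, _, hk⟩ := hz'
    rw [hk, add_sub_cancel_left, Complex.normSq_mul]
    have : Complex.normSq (Complex.exp (2 * Real.pi * Complex.I * k / (4:ℕ))) = 1 := by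
      rw [Complex.normSq_eq_norm_sq]
      have e : (2 * Real.pi * Complex.I * k / (4:ℕ) : ℂ) = ((2 * Real.pi * k / 4 : ℝ) : ℂ) * Complex.I := by
        push_cast; ring
      rw [e, Complex.norm_exp_ofReal_mul_I]; norm_num
    rw [this, mul_one]
  have hmem : ∀ z ∈ ({(a:ℂ), -(a:ℂ), (b:ℂ) * Complex.I, -((b:ℂ) * Complex.I)} : Set ℂ),
      Complex.normSq (z - c) = Complex.normSq r := by
    intro z hz
    rw [← rhombus_roots] at hz
    exact hdist z hz
  have h1 := hmem (a:ℂ) (by simp)
  have h2 := hmem (-(a:ℂ)) (by simp)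
  have h3 := hmem ((b:ℂ) * Complex.I) (by simp)
  have h4 := hmem (-((b:ℂ) * Complex.I)) (by simp)
  simp only [Complex.normSq_apply, Complex.sub_re, Complex.sub_im, Complex.neg_re, Complex.neg_im,
    Complex.ofReal_re, Complex.ofReal_im, Complex.mul_re, Complex.mul_im, Complex.I_re,
    Complex.I_im] at h1 h2 h3 h4
  have h5 : a * c.re = 0 := by nlinarith
  have h6 : b * c.im = 0 := by nlinarith
  have h7 : c.re = 0 := by
    rcases mul_eq_zero.mp h5 with h | h
    · exact absurd h ha.ne'
    · exact h
  have h8 : c.im = 0 := by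
    rcases mul_eq_zero.mp h6 with h | h
    · exact absurd h hb.ne'
    · exact h
  rw [h7, h8] at h1 h3
  have h9 : (a - b) * (a + b) = 0 := by nlinarith
  rcases mul_eq_zero.mp h9 with h | h
  · apply hab; linarith
  · linarith

/-- **The shadow need not be a closed domain.** For all `a, b > 0` with `a ≠ b` the polynomial
`P = (x^2 - a^2)(x^2 + b^2)`, whose roots `±a, ±ib` are the vertices of a rhombus that is not a
square, has degree `4 ≥ 3`, its roots are in convex position and do not form a regular polygon,
but its shadow lies in the union of the real and the imaginary axis and is not the closure of any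
nonempty open set (connected or not). -/
theorem result (a b : ℝ) (ha : 0 < a) (hb : 0 < b) (hab : a ≠ b) :
    ∃ P : ℂ[X], P = (X ^ 2 - C ((a:ℂ) ^ 2)) * (X ^ 2 + C ((b:ℂ) ^ 2)) ∧ P.natDegree = 4 ∧
      ConvexPosition P ∧ ¬ IsRegularPolygon P.natDegree {z : ℂ | P.eval z = 0} ∧
      shadow P ⊆ {z : ℂ | z.re = 0 ∨ z.im = 0} ∧
      ∀ V : Set ℂ, IsOpen V → V.Nonempty → shadow P ≠ closure V := by
  refine ⟨rhombus a b, rfl, rhombus_natDegree a b, rhombus_convex ha hb, ?_, shadow_subset a b, ?_⟩
  · rw [rhombus_natDegree]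
    exact rhombus_not_regular ha hb hab
  · intro V hV hne h
    exact no_open hV hne ((subset_closure.trans h.ge).trans (shadow_subset a b))

end Pool.Agent.Results.MP_424c76_an.Rhombus
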